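import Pool.Agent.H32.PropA

set_option autoImplicit false

open Filter Topology

namespace Pool.Agent.Results.MP_b9874d_an.PropA

/-- the set has positive upper density -/
def PosUD (A : Set ℕ) : Prop :=
  ∃ δ : ℝ, 0 < δ ∧ ∀ N₀ : ℕ, ∃ N : ℕ, N₀ < N ∧ δ * N ≤ ({n : ℕ | 1 ≤ n ∧ n ≤ N ∧ n ∈ A}.ncard : ℕ)

/-- An operator with property A that is not U-frequently recurrent. -/
theorem result :
    ∃ (X : Type) (_ : NormedAddCommGroup X) (_ : NormedSpace ℂ X) (_ : CompleteSpace X)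
      (T : X →L[ℂ] X),
      (∀ U : Set X, IsOpen U → U.Nonempty → ∃ x : X, PosUD {n | (T ^ n) x ∈ U}) ∧
      ¬Dense {x : X | ∀ V : Set X, IsOpen V → x ∈ V → PosUD {n | (T ^ n) x ∈ V}} := by
  refine ⟨_, inferInstance, inferInstance, inferInstance, Pool.Agent.H32.PA.T,
    fun U h1 h2 => Pool.Agent.H32.PA.propA h1 h2, fun h => ?_⟩
  let y := Pool.Agent.H32.PA.mk (Pi.single 0 1) (tendsto_const_nhds.congr'
    ((Set.finite_singleton 0).subset fun i hi => by_contra fun k => hi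
      (Pi.single_eq_of_ne (M := fun _ : ℤ => ℂ) k 1).symm))
  obtain ⟨x, h1, h2⟩ := h.exists_dist_lt y one_pos
  refine Pool.Agent.H32.PA.not_ufrec (fun e => ?_) h1
  have := (Pool.Agent.H32.PA.le_norm (y - x) 0).trans_lt (by rwa [← dist_eq_norm])
  rw [ZeroAtInftyContinuousMap.sub_apply, e, sub_zero] at this
  exact this.ne (by simp [y, Pool.Agent.H32.PA.mk])

end Pool.Agent.Results.MP_b9874d_an.PropA
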